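import Pool.Agent.H27.PM.Glue

/-!
# Acyclic switchings of subgraphs of planar graphs

The theorem `planar_switch` of helper27 for a subgraph of a planar graph.
-/

set_option autoImplicit false

namespace Pool.Agent.H13.TC

open Relation SimpleGraph Pool.Agent.H29.Tor Pool.Agent.H13.DA Pool.Agent.H27.PM

/-- the main theorem for subgraphs `H` of planar graphs `G`, from the sparse part -/
theorem planar_switch_le {V : Type*} [Fintype V] (SM : SparseMain V) (G H : SimpleGraph V)
    (hHG : H ≤ G) (hG : IsPlanar G)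
    (hsp : H.CliqueFree 3 ∨ ∀ S : Finset V, 2 ≤ S.card → (edgesIn H S).card + 3 ≤ 2 * S.card)
    (o : V → V → ZMod 2) (ho : ∀ x y, x ≠ y → o x y + o y x = 1) :
    ∃ X : V → ZMod 2, ∀ u, ¬ TransGen (fun x y => H.Adj x y ∧ o x y + X x + X y = 1) u u := by
  classical
  obtain ⟨R, hR⟩ := hG
  have hcx := rt_cx R
  have hcl := rt_clos R
  -- the graph of a component
  let HK : G.Dart → SimpleGraph V := fun d =>
    { Adj := fun x y => H.Adj x y ∧ G.connectedComponentMk x = G.connectedComponentMk d.fst
      symm := ⟨fun x y h => ⟨h.1.symm,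
        (ConnectedComponent.connectedComponentMk_eq_of_adj (hHG h.1)).symm.trans h.2⟩⟩
      loopless := ⟨fun x h => h.1.ne rfl⟩ }
  have hle : ∀ d, HK d ≤ H := fun d x y h => h.1
  have hX : ∀ d : G.Dart, ∃ X : V → ZMod 2,
      ∀ u, ¬ TransGen (fun x y => (HK d).Adj x y ∧ o x y + X x + X y = 1) u u := by
    intro d
    set T := comp (RT R) (vx R d.fst, vx R d.snd, rx R (d, false)) with hTd
    have hT : IsCx T := comp_isCx hcx _
    have hc : Conn T := comp_conn hcx _
    have hclT : Clos T := comp_clos hcx hcl _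
    have h6 : chi T = 6 := rt_spheres R hR _ (rt_edge R d)
    have hmem : ∀ x y (hxy : G.Adj x y), G.connectedComponentMk x = G.connectedComponentMk d.fst →
        (vx R x, vx R y, rx R (⟨(x, y), hxy⟩, false)) ∈ T := by
      intro x y hxy hx
      rw [hTd, mem_comp]
      refine ⟨rt_edge R ⟨(x, y), hxy⟩, ?_⟩
      exact rt_AA R d ⟨(x, y), hxy⟩ (ConnectedComponent.exact hx.symm)
    have hPM : PMinor T (HK d) := by
      refine ⟨fun x => {u | u = vx R x ∧ ∃ y, (HK d).Adj x y}, ?_, ?_, ?_, ?_⟩
      · rintro x _ ⟨rfl, y, hxy⟩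
        exact vert1 (hmem x y (hHG hxy.1) hxy.2)
      · rintro x x' _ ⟨rfl, -⟩ ⟨h, -⟩
        exact (vx_iff R _ _).1 h
      · rintro x _ ⟨rfl, -⟩ _ ⟨rfl, -⟩
        exact ReflTransGen.refl
      · intro x y hxy
        refine ⟨vx R x, ⟨rfl, y, hxy⟩, vx R y, ⟨rfl, x, hxy.symm⟩, Or.inl ⟨_, hmem x y (hHG hxy.1) hxy.2⟩⟩
    refine SM (PMinor T) (fun H H' h hH => hH.mono h) (fun H a b hab hH => hH.contract hab) ?_
      (HK d) hPM ?_ o ho
    · intro H' S hH hS htight hiso
      by_contra hcon
      have := hH.bound hT hc hclT h6 hS hiso (by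
        intro x hx y hy z hz hxy hyz hxz
        exact hcon ⟨x, hx, y, hy, z, hz, hxy, hyz, hxz⟩)
      omega
    · intro S hS
      rcases hsp with h3 | hsp
      · exact sparse_of_triangleFree hT hc hclT h6 hPM (h3.anti (hle d)) S hS
      · exact (Nat.add_le_add_right (Finset.card_le_card (edgesIn_mono (hle d) S)) 3).trans
          (hsp S hS)
  choose Xd hXd using hX
  let XK : G.ConnectedComponent → V → ZMod 2 := fun K =>
    if h : ∃ d : G.Dart, G.connectedComponentMk d.fst = K then Xd h.choose else fun _ => 0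
  refine ⟨fun v => XK (G.connectedComponentMk v) v, ?_⟩
  intro u hu
  obtain ⟨u', hu', _⟩ := TransGen.head'_iff.1 hu
  have hex : ∃ d : G.Dart, G.connectedComponentMk d.fst = G.connectedComponentMk u :=
    ⟨⟨(u, u'), hHG hu'.1⟩, rfl⟩
  have hcK : XK (G.connectedComponentMk u) = Xd hex.choose := by
    simp only [XK, dif_pos hex]
  have hd0 : G.connectedComponentMk hex.choose.fst = G.connectedComponentMk u := hex.choose_spec
  set d0 := hex.choose with hd0'
  have key : ∀ v, TransGen (fun x y => H.Adj x y ∧ o x y + XK (G.connectedComponentMk x) x +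
      XK (G.connectedComponentMk y) y = 1) u v →
      G.connectedComponentMk v = G.connectedComponentMk u ∧
      TransGen (fun x y => (HK d0).Adj x y ∧ o x y + Xd d0 x + Xd d0 y = 1) u v := by
    have step : ∀ x y, G.connectedComponentMk x = G.connectedComponentMk u →
        (H.Adj x y ∧ o x y + XK (G.connectedComponentMk x) x +
          XK (G.connectedComponentMk y) y = 1) →
        G.connectedComponentMk y = G.connectedComponentMk u ∧
        ((HK d0).Adj x y ∧ o x y + Xd d0 x + Xd d0 y = 1) := by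
      rintro x y hx ⟨hxy, h2⟩
      have hy : G.connectedComponentMk y = G.connectedComponentMk u := by
        rw [← hx]
        exact (ConnectedComponent.connectedComponentMk_eq_of_adj (hHG hxy)).symm
      refine ⟨hy, ⟨hxy, hx.trans hd0.symm⟩, ?_⟩
      rw [hx, hy, hcK] at h2
      exact h2
    intro v hv
    induction hv with
    | single h =>
      obtain ⟨h1, h2⟩ := step _ _ rfl h
      exact ⟨h1, TransGen.single h2⟩
    | tail _ h ih =>
      obtain ⟨h1, h2⟩ := step _ _ ih.1 h
      exact ⟨h1, ih.2.tail h2⟩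
  exact hXd d0 _ (key u hu).2

end Pool.Agent.H13.TC
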